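import Mathlib

/-!
# Convergence in law by approximation (MP_e22585_pr)
-/

set_option autoImplicit false

open MeasureTheory ProbabilityTheory Filter Topology Set
open scoped ENNReal BoundedContinuousFunction

namespace Pool.Agent.L5helper56.CG

/-- Two random variables which are close in probability have close expectations of Lipschitz functions. -/
theorem close_lip {Ω : Type} [MeasurableSpace Ω] (P : Measure Ω) [IsProbabilityMeasure P]
    {Z V : Ω → ℝ} (hZ : AEMeasurable Z P) (hV : AEMeasurable V P) {f : ℝ → ℝ} {C : ℝ} {L : NNReal}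
    (hC : ∀ x y, dist (f x) (f y) ≤ C) (hL : LipschitzWith L f) {η : ℝ} (hη : 0 < η)
    (h : P {x | η ≤ |Z x - V x|} ≤ ENNReal.ofReal η) :
    |∫ x, f (Z x) ∂P - ∫ x, f (V x) ∂P| ≤ (L + C) * η := by
  have hC0 : 0 ≤ C := dist_nonneg.trans (hC 0 0)
  have hf : Continuous f := hL.continuous
  obtain ⟨B, hB⟩ : ∃ B : ℝ, ∀ x, ‖f x‖ ≤ B := ⟨‖f 0‖ + C, fun x => by
    have h1 := hC x 0
    rw [dist_eq_norm] at h1
    have h2 : ‖f x‖ ≤ ‖f x - f 0‖ + ‖f 0‖ := by
      have := norm_add_le (f x - f 0) (f 0)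
      rwa [sub_add_cancel] at this
    linarith⟩
  have hi : ∀ {W : Ω → ℝ}, AEMeasurable W P → Integrable (fun x => f (W x)) P := fun {W} hW =>
    Integrable.of_bound (hf.measurable.comp_aemeasurable hW).aestronglyMeasurable B
      (ae_of_all _ fun x => hB _)
  rw [← integral_sub (hi hZ) (hi hV)]
  have hD : AEMeasurable (fun x => |Z x - V x|) P := (hZ.sub hV).norm
  have hbad : NullMeasurableSet {x | η ≤ |Z x - V x|} P :=
    nullMeasurableSet_le aemeasurable_const hD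
  set bad : Set Ω := {x | η ≤ |Z x - V x|} with hbaddef
  have hPbad : P.real bad ≤ η := by
    rw [Measure.real]
    exact (ENNReal.toReal_mono ENNReal.ofReal_ne_top h).trans (ENNReal.toReal_ofReal hη.le).le
  have hint : Integrable (fun x => (L : ℝ) * η + bad.indicator (fun _ => C) x) P := by
    refine (integrable_const _).add ?_
    exact IntegrableOn.integrable_indicator₀ (integrable_const C).integrableOn hbad
  calc |∫ x, (f (Z x) - f (V x)) ∂P| ≤ ∫ x, ((L : ℝ) * η + bad.indicator (fun _ => C) x) ∂P := by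
        rw [← Real.norm_eq_abs]
        refine norm_integral_le_of_norm_le hint (ae_of_all _ fun x => ?_)
        by_cases hx : x ∈ bad
        · rw [indicator_of_mem hx, ← dist_eq_norm]
          have : 0 ≤ (L : ℝ) * η := by positivity
          linarith [hC (Z x) (V x)]
        · rw [indicator_of_notMem hx, add_zero, ← dist_eq_norm]
          have h1 : |Z x - V x| < η := not_le.1 hx
          calc dist (f (Z x)) (f (V x)) ≤ L * dist (Z x) (V x) := hL.dist_le_mul _ _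
            _ ≤ L * η := by
              refine mul_le_mul_of_nonneg_left ?_ L.2
              rw [Real.dist_eq]
              exact h1.le
    _ = (L : ℝ) * η + C * P.real bad := by
        rw [integral_add (integrable_const _)
          (IntegrableOn.integrable_indicator₀ (integrable_const C).integrableOn hbad),
          integral_indicator₀ hbad]
        simp [mul_comm]
    _ ≤ (L + C) * η := by nlinarith

/-- Convergence in law of `Z ε` to `Y` if there are approximations which converge in law. -/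
theorem law_of_appr (Ω : ℝ → Type) [∀ ε, MeasurableSpace (Ω ε)] (P : ∀ ε, Measure (Ω ε))
    [∀ ε, IsProbabilityMeasure (P ε)] (Z : ∀ ε, Ω ε → ℝ)
    (hZ : ∀ᶠ ε in 𝓝[>] (0 : ℝ), AEMeasurable (Z ε) (P ε))
    {Ω' : Type} [MeasurableSpace Ω'] (P' : Measure Ω') [IsProbabilityMeasure P'] (Y : Ω' → ℝ)
    (hY : AEMeasurable Y P')
    (h : ∀ η : ℝ, 0 < η → ∃ (V : ∀ ε, Ω ε → ℝ) (W : Ω' → ℝ),
      (∀ᶠ ε in 𝓝[>] (0 : ℝ), AEMeasurable (V ε) (P ε)) ∧ AEMeasurable W P' ∧
      (∀ f : ℝ →ᵇ ℝ, Tendsto (fun ε => ∫ x, f (V ε x) ∂(P ε)) (𝓝[>] 0) (𝓝 (∫ y, f (W y) ∂P'))) ∧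
      (∀ᶠ ε in 𝓝[>] (0 : ℝ), (P ε) {x | η ≤ |Z ε x - V ε x|} ≤ ENNReal.ofReal η) ∧
      P' {y | η ≤ |Y y - W y|} ≤ ENNReal.ofReal η) :
    ∀ f : ℝ →ᵇ ℝ, Tendsto (fun ε => ∫ x, f (Z ε x) ∂(P ε)) (𝓝[>] 0) (𝓝 (∫ y, f (Y y) ∂P')) := by
  classical
  -- the statement for bounded Lipschitz functions
  have key : ∀ f : ℝ → ℝ, (∃ C : ℝ, ∀ x y, dist (f x) (f y) ≤ C) → (∃ L, LipschitzWith L f) →
      Tendsto (fun ε => ∫ x, f (Z ε x) ∂(P ε)) (𝓝[>] 0) (𝓝 (∫ y, f (Y y) ∂P')) := by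
    rintro f ⟨C, hC⟩ ⟨L, hL⟩
    have hC0 : 0 ≤ C := dist_nonneg.trans (hC 0 0)
    rw [Metric.tendsto_nhds]
    intro e he
    set η : ℝ := e / (3 * ((L : ℝ) + C + 1)) with hηdef
    have hpos : (0 : ℝ) < (L : ℝ) + C + 1 := by have := L.2; positivity
    have hη : 0 < η := by positivity
    have hsmall : ((L : ℝ) + C) * η < e / 3 := by
      have h1 : ((L : ℝ) + C + 1) * η = e / 3 := by
        rw [hηdef]; field_simp
      nlinarith
    obtain ⟨V, W, hV, hW, hVW, hZV, hYW⟩ := h η hη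
    let F : ℝ →ᵇ ℝ := ⟨⟨f, hL.continuous⟩, C, hC⟩
    have h1 := (Metric.tendsto_nhds.1 (hVW F)) (e / 3) (by positivity)
    filter_upwards [h1, hZ, hV, hZV] with ε h1 hZ hV hZV
    have h2 := close_lip (P ε) hZ hV hC hL hη hZV
    have h3 := close_lip P' hY hW hC hL hη hYW
    rw [Real.dist_eq] at h1 ⊢
    have h4 : |∫ x, f (V ε x) ∂(P ε) - ∫ y, f (W y) ∂P'| < e / 3 := h1
    have h5 : ∫ x, f (Z ε x) ∂(P ε) - ∫ y, f (Y y) ∂P' =
        (∫ x, f (Z ε x) ∂(P ε) - ∫ x, f (V ε x) ∂(P ε)) +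
        (∫ x, f (V ε x) ∂(P ε) - ∫ y, f (W y) ∂P') -
        (∫ y, f (Y y) ∂P' - ∫ y, f (W y) ∂P') := by ring
    rw [h5]
    have h6 := abs_add_le ((∫ x, f (Z ε x) ∂(P ε) - ∫ x, f (V ε x) ∂(P ε)) +
        (∫ x, f (V ε x) ∂(P ε) - ∫ y, f (W y) ∂P')) (-(∫ y, f (Y y) ∂P' - ∫ y, f (W y) ∂P'))
    have h7 := abs_add_le (∫ x, f (Z ε x) ∂(P ε) - ∫ x, f (V ε x) ∂(P ε))
        (∫ x, f (V ε x) ∂(P ε) - ∫ y, f (W y) ∂P')
    rw [abs_neg] at h6
    rw [sub_eq_add_neg]
    linarith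
  -- from Lipschitz functions to continuous functions
  let μs : ℝ → ProbabilityMeasure ℝ := fun ε =>
    if hm : AEMeasurable (Z ε) (P ε) then ⟨(P ε).map (Z ε), Measure.isProbabilityMeasure_map hm⟩
    else ⟨Measure.dirac 0, inferInstance⟩
  let μ : ProbabilityMeasure ℝ := ⟨P'.map Y, Measure.isProbabilityMeasure_map hY⟩
  have hμs : ∀ ε, AEMeasurable (Z ε) (P ε) → ∀ f : ℝ → ℝ, Continuous f →
      ∫ x, f x ∂(μs ε : Measure ℝ) = ∫ x, f (Z ε x) ∂(P ε) := by
    intro ε hm f hf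
    have h0 : μs ε = ⟨(P ε).map (Z ε), Measure.isProbabilityMeasure_map hm⟩ := dif_pos hm
    rw [h0]
    show ∫ x, f x ∂((P ε).map (Z ε)) = _
    rw [integral_map hm hf.aestronglyMeasurable]
  have hμ : ∀ f : ℝ → ℝ, Continuous f → ∫ x, f x ∂(μ : Measure ℝ) = ∫ y, f (Y y) ∂P' := by
    intro f hf
    show ∫ x, f x ∂(P'.map Y) = _
    rw [integral_map hY hf.aestronglyMeasurable]
  have hconv : Tendsto μs (𝓝[>] (0 : ℝ)) (𝓝 μ) := by
    rw [tendsto_iff_forall_lipschitz_integral_tendsto]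
    intro f hC hL
    have hf : Continuous f := hL.choose_spec.continuous
    rw [hμ f hf]
    refine (key f hC hL).congr' ?_
    filter_upwards [hZ] with ε hm
    exact (hμs ε hm f hf).symm
  intro f
  have h1 := (ProbabilityMeasure.tendsto_iff_forall_integral_tendsto.1 hconv) f
  rw [hμ f f.continuous] at h1
  refine h1.congr' ?_
  filter_upwards [hZ] with ε hm
  exact hμs ε hm f f.continuous

end Pool.Agent.L5helper56.CG
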