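import Pool.Agent.L5helper98.CG.Defs

/-!
# Elementary estimates of the model kernel `kap` (MP_e22585_pr, piece KLOG)
-/

set_option autoImplicit false

namespace Pool.Agent.L5helper56.CG

open Pool.Agent.L5helper98.CG

theorem kap_of_le {n j : ℕ} (h : n ≤ j) : kap 1 n j = 0 := by
  unfold kap
  rw [Finset.Ioc_eq_empty (by omega)]
  simp

theorem kap_nonneg (n j : ℕ) : 0 ≤ kap 1 n j := by
  unfold kap
  rw [one_mul]
  refine Finset.sum_nonneg fun k hk => ?_
  have h1 : j < k := (Finset.mem_Ioc.1 hk).1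
  have h2 : (j : ℝ) ≤ k := by exact_mod_cast h1.le
  exact div_nonneg (by linarith) (by positivity)

theorem kap_succ {n j : ℕ} (h : j ≤ n) :
    kap 1 (n + 1) j = kap 1 n j + (((n : ℝ) + 1) - j) / ((n : ℝ) + 1) ^ 2 := by
  unfold kap
  rw [Finset.sum_Ioc_succ_top h]
  push_cast
  ring

theorem kap_lower (j n : ℕ) (h : j ≤ n) :
    Real.log (((n : ℝ) + 1) / ((j : ℝ) + 1)) - 1 + (j : ℝ) / n ≤ kap 1 n j := by
  induction n, h using Nat.le_induction with
  | base =>
    rw [kap_of_le le_rfl, div_self (by positivity), Real.log_one]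
    have : (j : ℝ) / j ≤ 1 := div_self_le_one _
    linarith
  | succ n hn ih =>
    rw [kap_succ hn]
    have hn0 : (0 : ℝ) ≤ n := Nat.cast_nonneg n
    have hj0 : (0 : ℝ) ≤ j := Nat.cast_nonneg j
    have h1 : Real.log ((((n + 1 : ℕ) : ℝ) + 1) / ((j : ℝ) + 1)) =
        Real.log (((n : ℝ) + 1) / ((j : ℝ) + 1)) + Real.log (((n : ℝ) + 2) / ((n : ℝ) + 1)) := by
      rw [← Real.log_mul (by positivity) (by positivity)]
      congr 1
      push_cast
      field_simp
      ring
    have h2 : Real.log (((n : ℝ) + 2) / ((n : ℝ) + 1)) ≤ 1 / ((n : ℝ) + 1) := by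
      have := Real.log_le_sub_one_of_pos (x := ((n : ℝ) + 2) / ((n : ℝ) + 1)) (by positivity)
      have h3 : ((n : ℝ) + 2) / ((n : ℝ) + 1) - 1 = 1 / ((n : ℝ) + 1) := by
        field_simp
        ring
      linarith
    have h4 : (j : ℝ) / ((n : ℝ) + 1) - j / n ≤ - (j / ((n : ℝ) + 1) ^ 2) := by
      rcases Nat.eq_zero_or_pos n with hz | hz
      · subst hz
        have : j = 0 := by omega
        subst this
        simp
      · have hn1 : (0 : ℝ) < n := by exact_mod_cast hz
        have h5 : (j : ℝ) / ((n : ℝ) + 1) - j / n + j / ((n : ℝ) + 1) ^ 2 =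
            - (j / ((n : ℝ) * ((n : ℝ) + 1) ^ 2)) := by
          field_simp
          ring
        have h6 : 0 ≤ (j : ℝ) / ((n : ℝ) * ((n : ℝ) + 1) ^ 2) := by positivity
        linarith
    have h7 : (((n : ℝ) + 1) - j) / ((n : ℝ) + 1) ^ 2 =
        1 / ((n : ℝ) + 1) - j / ((n : ℝ) + 1) ^ 2 := by
      field_simp
    rw [h1, h7]
    push_cast
    linarith

theorem kap_diff (j n n' : ℕ) (h1 : 1 ≤ n) (h : n ≤ n') :
    kap 1 n' j - kap 1 n j ≤ Real.log ((n' : ℝ) / n) := by
  have hn1 : (0 : ℝ) < n := by exact_mod_cast h1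
  induction n', h using Nat.le_induction with
  | base =>
    rw [div_self hn1.ne', Real.log_one]
    linarith
  | succ k hk ih =>
    have hk1 : (0 : ℝ) < k := by exact_mod_cast (lt_of_lt_of_le h1 hk)
    have h2 : Real.log (((k + 1 : ℕ) : ℝ) / n) = Real.log ((k : ℝ) / n) + Real.log (((k : ℝ) + 1) / k) := by
      rw [← Real.log_mul (by positivity) (by positivity)]
      congr 1
      push_cast
      field_simp
    have h3 : 1 / ((k : ℝ) + 1) ≤ Real.log (((k : ℝ) + 1) / k) := by
      have := Real.one_sub_inv_le_log_of_pos (x := ((k : ℝ) + 1) / k) (by positivity)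
      have h4 : 1 - (((k : ℝ) + 1) / k)⁻¹ = 1 / ((k : ℝ) + 1) := by
        field_simp
        ring
      linarith
    rcases le_or_gt j k with hjk | hjk
    · rw [kap_succ hjk, h2]
      have h5 : (((k : ℝ) + 1) - j) / ((k : ℝ) + 1) ^ 2 ≤ 1 / ((k : ℝ) + 1) := by
        have hj0 : (0 : ℝ) ≤ j := Nat.cast_nonneg j
        rw [div_le_div_iff₀ (by positivity) (by positivity)]
        nlinarith
      linarith
    · rw [kap_of_le (by omega : k + 1 ≤ j), h2]
      have h6 : 0 ≤ kap 1 n j := kap_nonneg n j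
      have h7 : 0 ≤ Real.log ((k : ℝ) / n) := by
        apply Real.log_nonneg
        rw [le_div_iff₀ hn1, one_mul]
        exact_mod_cast hk
      have h8 : 0 ≤ 1 / ((k : ℝ) + 1) := by positivity
      linarith

theorem KLOG_holds : St_KLOG := by
  refine ⟨fun n j h => kap_of_le h, kap_nonneg, fun n j hn hj => ?_, fun n n' j hn h =>
    kap_diff j n n' hn h, fun m n j => by unfold kap; ring⟩
  have h1 := kap_lower j n hj
  have hn1 : (0 : ℝ) < n := by exact_mod_cast hn
  have hj0 : (0 : ℝ) ≤ j := Nat.cast_nonneg j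
  have hmax : (1 : ℝ) ≤ max (j : ℝ) 1 := le_max_right _ _
  have h2 : (n : ℝ) / max (j : ℝ) 1 ≤ 2 * (((n : ℝ) + 1) / ((j : ℝ) + 1)) := by
    rw [← mul_div_assoc, div_le_div_iff₀ (by positivity) (by positivity)]
    have h3 : (j : ℝ) + 1 ≤ 2 * max (j : ℝ) 1 := by linarith [le_max_left (j : ℝ) 1]
    nlinarith
  have h4 : Real.log ((n : ℝ) / max (j : ℝ) 1) ≤
      Real.log 2 + Real.log (((n : ℝ) + 1) / ((j : ℝ) + 1)) := by
    rw [← Real.log_mul (by norm_num) (by positivity)]
    exact Real.log_le_log (by positivity) h2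
  have h5 : Real.log 2 ≤ 1 := by
    have := Real.log_le_sub_one_of_pos (x := 2) (by norm_num)
    linarith
  have h6 : 0 ≤ (j : ℝ) / n := by positivity
  linarith

end Pool.Agent.L5helper56.CG
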