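import Pool.Agent.L5helper56.CG.LAW2F

/-!
# Convergence in law for measurable weights (MP_e22585_pr, LAW2)
-/

set_option autoImplicit false

namespace Pool.Agent.L5helper56.CG

open Pool.Agent.L5helper98.CG

/-- LAW2 from LAW, INS and POSW. -/
theorem LAW2_holds (hLAW : St_LAW) (hINS : St_INS) (hPOSW : St_POSW) : St_LAW2 :=
  law2_of hLAW hPOSW (field_close hPOSW hINS)

end Pool.Agent.L5helper56.CG
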