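import Pool.Agent.L5helper56.CG.LAW2M

/-!
# Measurable weights: the assembly (MP_e22585_pr, LAW2)
-/

set_option autoImplicit false

open MeasureTheory ProbabilityTheory Filter Topology Set
open scoped ENNReal BoundedContinuousFunction

namespace Pool.Agent.L5helper56.CG

open Pool.Agent.L5helper98.CG

theorem dst_mem {c : Bool} {u : ℝ} (hu : u ∈ Ico (0 : ℝ) 1) : 0 ≤ dst c u 0 ∧ dst c u 0 < 1 := by
  unfold dst
  rw [sub_zero, abs_of_nonneg hu.1]
  split_ifs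
  · exact ⟨le_min hu.1 (by linarith [hu.2]), (min_le_left _ _).trans_lt hu.2⟩
  · exact ⟨hu.1, hu.2⟩

theorem meas_dst {c : Bool} : Measurable fun u : ℝ => dst c u 0 := by
  unfold dst
  cases c
  · simp only [Bool.false_eq_true, if_false]
    fun_prop
  · simp only [if_true]
    fun_prop

theorem meas_logr {c : Bool} {r : ℝ → ℝ} (hr : Adm c r) :
    Measurable ((Ioo (0 : ℝ) 1).indicator fun u => Real.log (r u)) := by
  have h1 : ContinuousOn (fun u => Real.log (r u)) (Ioo 0 1) :=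
    hr.smooth.continuousOn.log fun u hu => (hr.pos u hu).ne'
  have h2 := h1.measurable_piecewise (g := fun _ => (0 : ℝ)) continuousOn_const measurableSet_Ioo
  have h3 : ((Ioo (0 : ℝ) 1).indicator fun u => Real.log (r u)) =
      (Ioo (0 : ℝ) 1).piecewise (fun u => Real.log (r u)) fun _ => 0 := by
    funext u
    by_cases hu : u ∈ Ioo (0 : ℝ) 1
    · rw [indicator_of_mem hu, piecewise_eq_of_mem _ _ _ hu]
    · rw [indicator_of_notMem hu, piecewise_eq_of_notMem _ _ _ hu]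
  rw [h3]
  exact h2

/-- The masses with the singular insertion are measurable. -/
theorem mass_meas (hPOSW : St_POSW) {c : Bool} {r : ℝ → ℝ} {μ ε : ℝ} (hr : Adm c r) (hμ : 0 < μ)
    (hε : 0 < ε) (hε2 : ε < 1 / 2) {Ω : Type} [MeasurableSpace Ω] {P : Measure Ω}
    [IsProbabilityMeasure P] {ω : ℝ → Ω → ℝ} (hf : Field c r μ ε P ω) {φ : ℝ → ℝ}
    (hφ : Measurable φ) (q : ℝ) :
    Measurable (mass (fun u => φ u * Real.exp (-(q * cv r μ ε (dst c u 0)))) ω) := by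
  obtain ⟨-, hm, -, -⟩ := hPOSW c r μ ε hr hμ hε hε2 Ω P ω hf
  let L : ℝ → ℝ := (Ioo (0 : ℝ) 1).indicator fun u => Real.log (r u)
  have hL : Measurable L := meas_logr hr
  let C : ℝ → ℝ := fun d => if ε ≤ d then -(μ * L d)
    else μ * (-Real.log (r ε) + (1 - d / ε) * (ε * deriv (fun t => Real.log (r t)) ε))
  have hC : Measurable C := by
    refine Measurable.ite measurableSet_Ici (hL.const_mul μ).neg ?_
    fun_prop
  let w : ℝ → ℝ := fun u => φ u * Real.exp (-(q * C (dst c u 0)))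
  have hw : Measurable w :=
    hφ.mul (Real.measurable_exp.comp ((hC.comp meas_dst).const_mul q).neg)
  have heq : mass (fun u => φ u * Real.exp (-(q * cv r μ ε (dst c u 0)))) ω = mass w ω := by
    funext x
    unfold mass
    refine setIntegral_congr_fun measurableSet_Ico fun u hu => ?_
    obtain ⟨h1, h2⟩ := dst_mem (c := c) hu
    have h3 : cv r μ ε (dst c u 0) = C (dst c u 0) := by
      unfold cv
      show _ = if ε ≤ dst c u 0 then -(μ * L (dst c u 0)) else _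
      by_cases h : ε ≤ dst c u 0
      · rw [if_pos h, if_pos h]
        show _ = -(μ * (Ioo (0 : ℝ) 1).indicator (fun u => Real.log (r u)) (dst c u 0))
        rw [indicator_of_mem (show dst c u 0 ∈ Ioo (0 : ℝ) 1 from ⟨hε.trans_le h, h2⟩)]
      · rw [if_neg h, if_neg h]
    show φ u * Real.exp (-(q * cv r μ ε (dst c u 0))) * Real.exp (ω u x) =
      φ u * Real.exp (-(q * C (dst c u 0))) * Real.exp (ω u x)
    rw [h3]
  rw [heq]
  exact hm w hw

/-- the closeness of the masses of two close weights -/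
def St_FC : Prop := ∀ (c : Bool) (r : ℝ → ℝ) (μ : ℝ) (Ω : ℝ → Type)
  [∀ ε, MeasurableSpace (Ω ε)] (P : ∀ ε, Measure (Ω ε)) (ω : ∀ ε, ℝ → Ω ε → ℝ),
  Fam c r μ Ω P ω → ∀ q : ℝ, -1 / μ - 1 / 2 < q → ∀ b η : ℝ, 0 < η → ∃ t : ℝ, 0 < t ∧
  ∀ φ ψ : ℝ → ℝ, Measurable φ → Measurable ψ → (∀ u, 0 ≤ φ u) → (∀ u, 0 ≤ ψ u) →
  (∀ u, φ u ≤ b) → (∀ u, ψ u ≤ b) → ∫ u in Ico (0 : ℝ) 1, |φ u - ψ u| ≤ t →
  ∀ᶠ ε in 𝓝[>] (0 : ℝ),
    (P ε) {x | η ≤ |mass (fun u => φ u * Real.exp (-(q * cv r μ ε (dst c u 0)))) (ω ε) x -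
      mass (fun u => ψ u * Real.exp (-(q * cv r μ ε (dst c u 0)))) (ω ε) x|} ≤ ENNReal.ofReal η

theorem law2_of (hLAW : St_LAW) (hPOSW : St_POSW) (hFC : St_FC) : St_LAW2 := by
  intro c r μ Ω _ P ω hF Ω' _ P' _ M hM φ hφ q hq
  have hprob := hF.prob
  obtain ⟨a, ha, hφa⟩ := hφ.low
  obtain ⟨b, hφb⟩ := hφ.up
  obtain ⟨h1i, h1a, -, -⟩ := hLAW c r μ Ω P ω hF Ω' P' M hM (fun _ => 1) continuous_const
    (fun _ => one_pos) q hq
  have hint1 : ∀ᵐ y ∂P', IntegrableOn (fun u => r u ^ (μ * q)) (Ioo 0 1) (M y) := by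
    filter_upwards [h1i] with y hy
    simpa using hy
  have hφ0 : ∀ u, 0 ≤ φ u := fun u => ha.le.trans (hφa u)
  have hYm : Measurable fun y => ∫ u in Ioo (0 : ℝ) 1, r u ^ (μ * q) * φ u ∂(M y) :=
    meas_int hM.meas (meas_wphi hF.adm (μ * q) hφ.meas) fun u hu =>
      mul_nonneg (Real.rpow_nonneg (hF.adm.pos u hu).le _) (hφ0 u)
  refine ⟨?_, h1a, hYm.aemeasurable, ?_⟩
  · filter_upwards [hint1] with y hy
    refine hy.mul_bdd (c := b) hφ.meas.aestronglyMeasurable (ae_of_all _ fun u => ?_)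
    rw [Real.norm_eq_abs, abs_of_nonneg (hφ0 u)]
    exact hφb u
  have hε : ∀ᶠ ε in 𝓝[>] (0 : ℝ), ε < 1 / 2 :=
    mem_nhdsWithin_of_mem_nhds (Iio_mem_nhds (by norm_num))
  have hmm : ∀ θ : ℝ → ℝ, Measurable θ → ∀ᶠ ε in 𝓝[>] (0 : ℝ),
      AEMeasurable (mass (fun u => θ u * Real.exp (-(q * cv r μ ε (dst c u 0)))) (ω ε)) (P ε) := by
    intro θ hθ
    filter_upwards [hF.field, hε, self_mem_nhdsWithin] with ε hf h1 h2
    exact (mass_meas hPOSW hF.adm hF.mu_pos h2 h1 hf hθ q).aemeasurable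
  refine law_of_appr Ω P (fun ε => mass (fun u => φ u * Real.exp (-(q * cv r μ ε (dst c u 0)))) (ω ε))
    (hmm φ hφ.meas) P' (fun y => ∫ u in Ioo (0 : ℝ) 1, r u ^ (μ * q) * φ u ∂(M y))
    hYm.aemeasurable ?_
  intro η hη
  obtain ⟨t1, ht1, h1⟩ := hFC c r μ Ω P ω hF q hq b η hη
  obtain ⟨t2, ht2, h2⟩ := M_close hF.adm hM.meas (μ * q) hint1 b hη
  have hfin : IsFiniteMeasure (P'.bind M) := by
    refine ⟨?_⟩
    rw [Measure.bind_apply MeasurableSet.univ hM.meas.aemeasurable]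
    exact (mean_fin hPOSW hF hM).trans_lt ENNReal.one_lt_top
  obtain ⟨ψ, hψc, hψa, hψb, hψ1, hψ2⟩ := approx (P'.bind M) hφ.meas hφa hφb
    (lt_min ht1 ht2)
  have hψ0 : ∀ u, 0 ≤ ψ u := fun u => ha.le.trans (hψa u)
  obtain ⟨-, -, h3, h4⟩ := hLAW c r μ Ω P ω hF Ω' P' M hM ψ hψc
    (fun u => ha.trans_le (hψa u)) q hq
  refine ⟨fun ε => mass (fun u => ψ u * Real.exp (-(q * cv r μ ε (dst c u 0)))) (ω ε),
    fun y => ∫ u in Ioo (0 : ℝ) 1, r u ^ (μ * q) * ψ u ∂(M y), hmm ψ hψc.measurable, h3, h4, ?_, ?_⟩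
  · exact h1 φ ψ hφ.meas hψc.measurable hφ0 hψ0 hφb hψb (hψ1.trans (min_le_left _ _))
  · exact h2 φ ψ hφ.meas hψc.measurable hφ0 hψ0 hφb hψb
      (hψ2.trans (ENNReal.ofReal_le_ofReal (min_le_right _ _)))

end Pool.Agent.L5helper56.CG
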