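import Pool.Agent.L5helper56.CG.LAW2A

/-!
# Close weights have close masses (MP_e22585_pr, LAW2)
-/

set_option autoImplicit false

open MeasureTheory ProbabilityTheory Filter Topology Set
open scoped ENNReal BoundedContinuousFunction

namespace Pool.Agent.L5helper56.CG

open Pool.Agent.L5helper98.CG

theorem dst_self (c : Bool) (u : ℝ) : dst c u u = 0 := by
  unfold dst
  split_ifs <;> simp

/-- The covariance is bounded by the variance. -/
theorem cv_bound {c : Bool} {r : ℝ → ℝ} {μ ε : ℝ} {Ω : Type} [MeasurableSpace Ω] {P : Measure Ω}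
    [IsProbabilityMeasure P] {ω : ℝ → Ω → ℝ} (hf : Field c r μ ε P ω) {u : ℝ}
    (hu : u ∈ Ico (0 : ℝ) 1) : |cv r μ ε (dst c u 0)| ≤ cv r μ ε 0 := by
  have h0 : (0 : ℝ) ∈ Ico (0 : ℝ) 1 := ⟨le_rfl, zero_lt_one⟩
  have hX : MemLp (ω u) 2 P := (hf.gauss.hasGaussianLaw_eval ⟨u, hu⟩).memLp_two
  have hY : MemLp (ω 0) 2 P := (hf.gauss.hasGaussianLaw_eval ⟨0, h0⟩).memLp_two
  have hVX : Var[ω u; P] = cv r μ ε 0 := by
    rw [← covariance_self hX.aestronglyMeasurable.aemeasurable, hf.cov u hu u hu, dst_self]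
  have hVY : Var[ω 0; P] = cv r μ ε 0 := by
    rw [← covariance_self hY.aestronglyMeasurable.aemeasurable, hf.cov 0 h0 0 h0, dst_self]
  have h1 := variance_add hX hY
  have h2 := variance_sub hX hY
  have h3 := variance_nonneg (ω u + ω 0) P
  have h4 := variance_nonneg (ω u - ω 0) P
  rw [hf.cov u hu 0 h0, hVX, hVY] at h1 h2
  rw [abs_le]
  constructor <;> linarith

/-- The singular weight is bounded away from the end points. -/
theorem w_bound {c : Bool} {r : ℝ → ℝ} (hr : Adm c r) (μ q : ℝ) {δ : ℝ} (hδ : 0 < δ)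
    : ∃ C : ℝ, 0 < C ∧ ∀ ε : ℝ, 0 < ε → ε ≤ δ → ∀ u ∈ Ico δ (1 - δ),
      Real.exp (-(q * cv r μ ε (dst c u 0))) ≤ C := by
  have hc : ContinuousOn (fun d => Real.exp (-(q * -(μ * Real.log (r d))))) (Icc δ (1 - δ)) := by
    have h1 : ContinuousOn r (Icc δ (1 - δ)) :=
      hr.smooth.continuousOn.mono fun d hd => ⟨hδ.trans_le hd.1, by linarith [hd.2]⟩
    have h2 : ContinuousOn (fun d => Real.log (r d)) (Icc δ (1 - δ)) :=
      h1.log fun d hd => (hr.pos d ⟨hδ.trans_le hd.1, by linarith [hd.2]⟩).ne'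
    fun_prop
  obtain ⟨C, hC⟩ := (isCompact_Icc.bddAbove_image hc)
  refine ⟨max C 1, by positivity, fun ε hε hεδ u hu => ?_⟩
  have hu' : u ∈ Ico (0 : ℝ) 1 := ⟨hδ.le.trans hu.1, by linarith [hu.2]⟩
  have hd : dst c u 0 ∈ Icc δ (1 - δ) := by
    unfold dst
    rw [sub_zero, abs_of_nonneg hu'.1]
    split_ifs
    · exact ⟨le_min hu.1 (by linarith [hu.2]), (min_le_left _ _).trans hu.2.le⟩
    · exact ⟨hu.1, hu.2.le⟩
  have h1 : cv r μ ε (dst c u 0) = -(μ * Real.log (r (dst c u 0))) := by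
    unfold cv
    rw [if_pos (hεδ.trans hd.1)]
  rw [h1]
  exact (hC ⟨_, hd, rfl⟩).trans (le_max_left _ _)

theorem field_close (hPOSW : St_POSW) (hINS : St_INS) : St_FC := by
  intro c r μ Ω _ P ω hF q hq b η hη
  by_cases hb : b < 0
  · refine ⟨1, one_pos, fun φ ψ _ _ h0 _ h1 => ?_⟩
    exact absurd ((h0 0).trans (h1 0)) (not_le.2 hb)
  rw [not_lt] at hb
  -- the ends
  set e : ℝ := min (η / 2) (η / (2 * (b + 1))) with he
  have he0 : 0 < e := by rw [he]; positivity
  obtain ⟨δ₀, hδ₀, hδ⟩ := hINS c r μ Ω P ω hF q hq e he0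
  set δ : ℝ := min δ₀ (1 / 4) with hδdef
  have hδ0 : 0 < δ := by rw [hδdef]; positivity
  have hδ2 : δ < 1 / 2 := lt_of_le_of_lt (min_le_right _ _) (by norm_num)
  have hins := hδ δ hδ0 (min_le_left _ _)
  obtain ⟨C, hC0, hC⟩ := w_bound hF.adm μ q hδ0
  refine ⟨η ^ 2 / (4 * C), by positivity, fun φ ψ hφ hψ hφ0 hψ0 hφb hψb hφψ => ?_⟩
  have hε : ∀ᶠ ε in 𝓝[>] (0 : ℝ), ε ≤ δ :=
    mem_nhdsWithin_of_mem_nhds (Iic_mem_nhds hδ0)
  filter_upwards [hF.field, hε, self_mem_nhdsWithin, hins] with ε hf hε1 hε0 hins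
  have hε0 : 0 < ε := hε0
  have hprob := hF.prob ε
  have hε2 : ε < 1 / 2 := lt_of_le_of_lt hε1 hδ2
  obtain ⟨hint, hm, -, hmean⟩ := hPOSW c r μ ε hF.adm hF.mu_pos hε0 hε2 (Ω ε) (P ε) (ω ε) hf
  set D : ℝ → ℝ := fun u => |φ u - ψ u| with hD
  have hDm : Measurable D := (hφ.sub hψ).norm
  have hD0 : ∀ u, 0 ≤ D u := fun u => abs_nonneg _
  have hDb : ∀ u, D u ≤ b := fun u => by
    show |φ u - ψ u| ≤ b
    rw [abs_le]
    constructor <;> linarith [hφ0 u, hψ0 u, hφb u, hψb u]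
  set w : ℝ → ℝ := fun u => Real.exp (-(q * cv r μ ε (dst c u 0))) with hw
  have hw0 : ∀ u, 0 ≤ w u := fun u => (Real.exp_pos _).le
  -- the weight is measurable and bounded on `[0,1)`
  have hwb : ∃ K : ℝ, ∀ u ∈ Ico (0 : ℝ) 1, w u ≤ K := by
    refine ⟨Real.exp (|q| * cv r μ ε 0), fun u hu => Real.exp_le_exp.2 ?_⟩
    have h1 : -(q * cv r μ ε (dst c u 0)) ≤ |q * cv r μ ε (dst c u 0)| := neg_le_abs _
    rw [abs_mul] at h1
    exact h1.trans (mul_le_mul_of_nonneg_left (cv_bound hf hu) (abs_nonneg _))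
  obtain ⟨K, hK⟩ := hwb
  have hwm : AEStronglyMeasurable w (volume.restrict (Ico (0 : ℝ) 1)) := by
    let L : ℝ → ℝ := (Ioo (0 : ℝ) 1).indicator fun u => Real.log (r u)
    have hL : Measurable L := meas_logr hF.adm
    let Cf : ℝ → ℝ := fun d => if ε ≤ d then -(μ * L d)
      else μ * (-Real.log (r ε) + (1 - d / ε) * (ε * deriv (fun t => Real.log (r t)) ε))
    have hCf : Measurable Cf := by
      refine Measurable.ite measurableSet_Ici (hL.const_mul μ).neg ?_
      fun_prop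
    let w' : ℝ → ℝ := fun u => Real.exp (-(q * Cf (dst c u 0)))
    have hw' : Measurable w' := Real.measurable_exp.comp ((hCf.comp meas_dst).const_mul q).neg
    refine hw'.aestronglyMeasurable.congr ?_
    refine (ae_restrict_iff' measurableSet_Ico).2 (ae_of_all _ fun u hu => ?_)
    obtain ⟨h1, h2⟩ := dst_mem (c := c) hu
    show Real.exp (-(q * Cf (dst c u 0))) = Real.exp (-(q * cv r μ ε (dst c u 0)))
    have h3 : cv r μ ε (dst c u 0) = Cf (dst c u 0) := by
      unfold cv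
      show _ = if ε ≤ dst c u 0 then -(μ * L (dst c u 0)) else _
      by_cases h : ε ≤ dst c u 0
      · rw [if_pos h, if_pos h]
        show _ = -(μ * (Ioo (0 : ℝ) 1).indicator (fun u => Real.log (r u)) (dst c u 0))
        rw [indicator_of_mem (show dst c u 0 ∈ Ioo (0 : ℝ) 1 from ⟨hε0.trans_le h, h2⟩)]
      · rw [if_neg h, if_neg h]
    rw [h3]
  -- the mass of `D`
  have hDmass : (P ε) {x | η / (2 * C) ≤ mass D (ω ε) x} ≤ ENNReal.ofReal (η / 2) := by
    have h1 := meas_ge_le_lintegral_div (μ := P ε) (f := fun x => ENNReal.ofReal (mass D (ω ε) x))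
      (hm D hDm).ennreal_ofReal.aemeasurable (ε := ENNReal.ofReal (η / (2 * C)))
      (by rw [Ne, ENNReal.ofReal_eq_zero, not_le]; positivity) ENNReal.ofReal_ne_top
    have h2 : {x | η / (2 * C) ≤ mass D (ω ε) x} ⊆
        {x | ENNReal.ofReal (η / (2 * C)) ≤ ENNReal.ofReal (mass D (ω ε) x)} := fun x hx =>
      ENNReal.ofReal_le_ofReal hx
    refine (measure_mono h2).trans (h1.trans ?_)
    rw [hmean D hDm hD0 ⟨b, hDb⟩, ENNReal.div_le_iff
      (by rw [Ne, ENNReal.ofReal_eq_zero, not_le]; positivity) ENNReal.ofReal_ne_top,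
      ← ENNReal.ofReal_mul (by positivity)]
    refine ENNReal.ofReal_le_ofReal (hφψ.trans (le_of_eq ?_))
    field_simp
    ring
  -- the bad set
  have hsub : {x | η ≤ |mass (fun u => φ u * w u) (ω ε) x - mass (fun u => ψ u * w u) (ω ε) x|}
      ≤ᵐ[P ε] (({x | e ≤ mass ((Ico 0 δ ∪ Ico (1 - δ) 1).indicator w) (ω ε) x} ∪
        {x | η / (2 * C) ≤ mass D (ω ε) x} : Set (Ω ε))) := by
    filter_upwards [hint] with x hx hmem
    by_contra hnot
    have hnot' : ¬ (x ∈ {x | e ≤ mass ((Ico 0 δ ∪ Ico (1 - δ) 1).indicator w) (ω ε) x} ∨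
      x ∈ {x | η / (2 * C) ≤ mass D (ω ε) x}) := hnot
    rw [not_or] at hnot'
    obtain ⟨hn1, hn2⟩ := hnot'
    have hn1 : mass ((Ico 0 δ ∪ Ico (1 - δ) 1).indicator w) (ω ε) x < e := not_le.1 hn1
    have hn2 : mass D (ω ε) x < η / (2 * C) := not_le.1 hn2
    have hmem : η ≤ |mass (fun u => φ u * w u) (ω ε) x - mass (fun u => ψ u * w u) (ω ε) x| := hmem
    -- integrability
    have hi : ∀ θ : ℝ → ℝ, AEStronglyMeasurable θ (volume.restrict (Ico (0 : ℝ) 1)) → ∀ B : ℝ,
        (∀ u ∈ Ico (0 : ℝ) 1, |θ u| ≤ B) →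
        IntegrableOn (fun u => θ u * Real.exp (ω ε u x)) (Ico 0 1) := by
      intro θ hθ B hB
      refine hx.bdd_mul (c := B) hθ ?_
      refine (ae_restrict_iff' measurableSet_Ico).2 (ae_of_all _ fun u hu => ?_)
      rw [Real.norm_eq_abs]
      exact hB u hu
    have hθw : ∀ θ : ℝ → ℝ, Measurable θ → (∀ u, 0 ≤ θ u) → (∀ u, θ u ≤ b) →
        IntegrableOn (fun u => θ u * w u * Real.exp (ω ε u x)) (Ico 0 1) := by
      intro θ hθ h0 h1
      refine hi (fun u => θ u * w u) (hθ.aestronglyMeasurable.mul hwm) (b * K) fun u hu => ?_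
      rw [abs_of_nonneg (mul_nonneg (h0 u) (hw0 u))]
      exact mul_le_mul (h1 u) (hK u hu) (hw0 u) hb
    have hends : MeasurableSet (Ico 0 δ ∪ Ico (1 - δ) 1 : Set ℝ) :=
      measurableSet_Ico.union measurableSet_Ico
    have hEi : IntegrableOn (fun u => (Ico 0 δ ∪ Ico (1 - δ) 1).indicator w u *
        Real.exp (ω ε u x)) (Ico 0 1) := by
      refine hi _ (hwm.indicator hends) K fun u hu => ?_
      rw [abs_of_nonneg (indicator_nonneg (fun u _ => hw0 u) u)]
      exact (indicator_le_self' (fun u _ => hw0 u) u).trans (hK u hu)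
    have hDi : IntegrableOn (fun u => D u * Real.exp (ω ε u x)) (Ico 0 1) := by
      refine hi D hDm.aestronglyMeasurable b fun u _ => ?_
      rw [abs_of_nonneg (hD0 u)]
      exact hDb u
    have h1 : |mass (fun u => φ u * w u) (ω ε) x - mass (fun u => ψ u * w u) (ω ε) x| ≤
        ∫ u in Ico (0 : ℝ) 1, D u * w u * Real.exp (ω ε u x) := by
      unfold mass
      rw [← integral_sub (hθw φ hφ hφ0 hφb) (hθw ψ hψ hψ0 hψb), ← Real.norm_eq_abs]
      refine (norm_integral_le_integral_norm _).trans (le_of_eq ?_)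
      congr 1
      funext u
      rw [← sub_mul, ← sub_mul, norm_mul, norm_mul, Real.norm_eq_abs, Real.norm_eq_abs,
        Real.norm_eq_abs, abs_of_nonneg (hw0 u), abs_of_nonneg (Real.exp_pos _).le]
    have h2 : ∫ u in Ico (0 : ℝ) 1, D u * w u * Real.exp (ω ε u x) ≤
        ∫ u in Ico (0 : ℝ) 1, (b * ((Ico 0 δ ∪ Ico (1 - δ) 1).indicator w u *
          Real.exp (ω ε u x)) + C * (D u * Real.exp (ω ε u x))) := by
      refine setIntegral_mono_on (hθw D hDm hD0 hDb) ((hEi.const_mul b).add (hDi.const_mul C))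
        measurableSet_Ico fun u hu => ?_
      have hexp := (Real.exp_pos (ω ε u x)).le
      by_cases hue : u ∈ (Ico 0 δ ∪ Ico (1 - δ) 1 : Set ℝ)
      · rw [indicator_of_mem hue]
        have h3 : D u * w u * Real.exp (ω ε u x) ≤ b * (w u * Real.exp (ω ε u x)) := by
          rw [mul_assoc]
          exact mul_le_mul_of_nonneg_right (hDb u) (mul_nonneg (hw0 u) hexp)
        have h4 : 0 ≤ C * (D u * Real.exp (ω ε u x)) :=
          mul_nonneg hC0.le (mul_nonneg (hD0 u) hexp)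
        linarith
      · rw [indicator_of_notMem hue, zero_mul, mul_zero, zero_add]
        have hu' : u ∈ Ico δ (1 - δ) := by
          rw [mem_union, not_or] at hue
          constructor
          · by_contra h
            exact hue.1 ⟨hu.1, not_le.1 h⟩
          · by_contra h
            exact hue.2 ⟨not_lt.1 h, hu.2⟩
        have h3 := hC ε hε0 hε1 u hu'
        have h4 : D u * w u * Real.exp (ω ε u x) = w u * (D u * Real.exp (ω ε u x)) := by ring
        rw [h4]
        exact mul_le_mul_of_nonneg_right h3 (mul_nonneg (hD0 u) hexp)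
    have h3 : ∫ u in Ico (0 : ℝ) 1, (b * ((Ico 0 δ ∪ Ico (1 - δ) 1).indicator w u *
          Real.exp (ω ε u x)) + C * (D u * Real.exp (ω ε u x))) =
        b * mass ((Ico 0 δ ∪ Ico (1 - δ) 1).indicator w) (ω ε) x + C * mass D (ω ε) x := by
      unfold mass
      rw [integral_add (hEi.const_mul b) (hDi.const_mul C), integral_const_mul,
        integral_const_mul]
    have h4 : C * mass D (ω ε) x < η / 2 := by
      have := mul_lt_mul_of_pos_left hn2 hC0
      have h5 : C * (η / (2 * C)) = η / 2 := by field_simp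
      linarith
    have h5 : b * mass ((Ico 0 δ ∪ Ico (1 - δ) 1).indicator w) (ω ε) x ≤ η / 2 := by
      have h6 : b * mass ((Ico 0 δ ∪ Ico (1 - δ) 1).indicator w) (ω ε) x ≤
          b * (η / (2 * (b + 1))) :=
        mul_le_mul_of_nonneg_left (hn1.le.trans (min_le_right _ _)) hb
      have h7 : b * (η / (2 * (b + 1))) ≤ η / 2 := by
        rw [← mul_div_assoc, div_le_div_iff₀ (by positivity) (by norm_num)]
        nlinarith
      exact h6.trans h7
    linarith
  refine (measure_mono_ae hsub).trans ((measure_union_le _ _).trans ?_)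
  have h6 : ENNReal.ofReal η = ENNReal.ofReal (η / 2) + ENNReal.ofReal (η / 2) := by
    rw [← ENNReal.ofReal_add (by positivity) (by positivity)]
    congr 1
    ring
  rw [h6]
  exact add_le_add (hins.trans (ENNReal.ofReal_le_ofReal (min_le_left _ _))) hDmass

end Pool.Agent.L5helper56.CG
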