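import Pool.Agent.L5helper98.CG.Defs2
import Pool.Agent.L5helper56.CG.Appr

/-!
# The side of the limit measure for measurable weights (MP_e22585_pr, LAW2)
-/

set_option autoImplicit false

open MeasureTheory ProbabilityTheory Filter Topology Set
open scoped ENNReal BoundedContinuousFunction

namespace Pool.Agent.L5helper56.CG

open Pool.Agent.L5helper98.CG

/-- The singular weight is measurable on `(0,1)`. -/
theorem meas_w {c : Bool} {r : ℝ → ℝ} (hr : Adm c r) (s : ℝ) :
    Measurable ((Ioo (0 : ℝ) 1).indicator fun u => r u ^ s) := by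
  have h1 : ContinuousOn (fun u => r u ^ s) (Ioo 0 1) :=
    hr.smooth.continuousOn.rpow_const fun u hu => Or.inl (hr.pos u hu).ne'
  have h2 := h1.measurable_piecewise (g := fun _ => (0 : ℝ)) continuousOn_const measurableSet_Ioo
  have h3 : ((Ioo (0 : ℝ) 1).indicator fun u => r u ^ s) =
      (Ioo (0 : ℝ) 1).piecewise (fun u => r u ^ s) fun _ => 0 := by
    funext u
    by_cases hu : u ∈ Ioo (0 : ℝ) 1
    · rw [indicator_of_mem hu, piecewise_eq_of_mem _ _ _ hu]
    · rw [indicator_of_notMem hu, piecewise_eq_of_notMem _ _ _ hu]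
  rw [h3]
  exact h2

theorem meas_wphi {c : Bool} {r : ℝ → ℝ} (hr : Adm c r) (s : ℝ) {φ : ℝ → ℝ} (hφ : Measurable φ) :
    Measurable ((Ioo (0 : ℝ) 1).indicator fun u => r u ^ s * φ u) := by
  have h1 : ((Ioo (0 : ℝ) 1).indicator fun u => r u ^ s * φ u) =
      fun u => (Ioo (0 : ℝ) 1).indicator (fun u => r u ^ s) u * φ u := by
    funext u
    by_cases hu : u ∈ Ioo (0 : ℝ) 1
    · rw [indicator_of_mem hu, indicator_of_mem hu]
    · rw [indicator_of_notMem hu, indicator_of_notMem hu, zero_mul]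
  rw [h1]
  exact (meas_w hr s).mul hφ

/-- The integral of a nonnegative function against a random measure is measurable. -/
theorem meas_int {Ω' : Type} [MeasurableSpace Ω'] {M : Ω' → Measure ℝ} (hM : Measurable M)
    {h : ℝ → ℝ} (hh : Measurable ((Ioo (0 : ℝ) 1).indicator h)) (h0 : ∀ u ∈ Ioo (0 : ℝ) 1, 0 ≤ h u) :
    Measurable fun y => ∫ u in Ioo (0 : ℝ) 1, h u ∂(M y) := by
  have h1 : ∀ y, ∫ u in Ioo (0 : ℝ) 1, h u ∂(M y) =
      (∫⁻ u, ENNReal.ofReal ((Ioo (0 : ℝ) 1).indicator h u) ∂(M y)).toReal := by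
    intro y
    rw [← integral_indicator measurableSet_Ioo]
    rw [integral_eq_lintegral_of_nonneg_ae]
    · exact ae_of_all _ fun u => indicator_nonneg h0 u
    · exact hh.aestronglyMeasurable
  simp_rw [h1]
  exact ((Measure.measurable_lintegral hh.ennreal_ofReal).comp hM).ennreal_toReal

/-- The limit measure has finite mean. -/
theorem mean_fin {c : Bool} {r : ℝ → ℝ} {μ : ℝ} {Ω : ℝ → Type}
    [∀ ε, MeasurableSpace (Ω ε)] {P : ∀ ε, Measure (Ω ε)} {ω : ∀ ε, ℝ → Ω ε → ℝ}
    (hPOSW : St_POSW) (hF : Fam c r μ Ω P ω) {Ω' : Type} [MeasurableSpace Ω'] {P' : Measure Ω'}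
    [IsProbabilityMeasure P'] {M : Ω' → Measure ℝ} (hM : IsChaos Ω P ω P' M) :
    ∫⁻ y, M y univ ∂P' ≤ 1 := by
  have hmass : ∀ y, ∫ u in Icc (0 : ℝ) 1, (1 : ℝ) ∂(M y) = (M y (Icc 0 1)).toReal := by
    intro y
    rw [setIntegral_const, smul_eq_mul, mul_one]
    rfl
  have hmeas : Measurable fun y => (M y (Icc (0 : ℝ) 1)).toReal :=
    ((Measure.measurable_coe measurableSet_Icc).comp hM.meas).ennreal_toReal
  have key : ∀ n : ℕ, ∫⁻ y, min (M y univ) n ∂P' ≤ 1 := by
    intro n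
    let f : ℝ →ᵇ ℝ := ⟨⟨fun x => min (max x 0) n, by fun_prop⟩, n, fun x y => by
      rw [Real.dist_eq]
      have h1 : 0 ≤ min (max x 0) (n : ℝ) := le_min (le_max_right _ _) (Nat.cast_nonneg n)
      have h2 : min (max x 0) (n : ℝ) ≤ n := min_le_right _ _
      have h3 : 0 ≤ min (max y 0) (n : ℝ) := le_min (le_max_right _ _) (Nat.cast_nonneg n)
      have h4 : min (max y 0) (n : ℝ) ≤ n := min_le_right _ _
      rw [abs_le]
      constructor <;> linarith⟩
    have hf0 : ∀ x, 0 ≤ f x := fun x => le_min (le_max_right _ _) (Nat.cast_nonneg n)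
    have hfx : ∀ x, 0 ≤ x → f x ≤ x := fun x hx => (min_le_left _ _).trans (max_le le_rfl hx)
    have h1 := hM.lim (fun _ => 1) continuous_const (fun _ => one_pos) f
    have h2 : ∫ y, f (∫ u in Icc (0 : ℝ) 1, (1 : ℝ) ∂(M y)) ∂P' ≤ 1 := by
      refine le_of_tendsto h1 ?_
      have hε : ∀ᶠ ε in 𝓝[>] (0 : ℝ), ε < 1 / 2 :=
        mem_nhdsWithin_of_mem_nhds (Iio_mem_nhds (by norm_num))
      filter_upwards [hF.field, hε, self_mem_nhdsWithin] with ε hfield hε hε0
      have := hF.prob ε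
      obtain ⟨-, hm, -, hmean⟩ := hPOSW c r μ ε hF.adm hF.mu_pos hε0 hε (Ω ε) (P ε) (ω ε) hfield
      have hmm := hm (fun _ => 1) measurable_const
      have hmn := hmean (fun _ => 1) measurable_const (fun _ => zero_le_one) ⟨1, fun _ => le_rfl⟩
      have hnn : ∀ x, 0 ≤ mass (fun _ => 1) (ω ε) x := fun x =>
        integral_nonneg fun u => by positivity
      rw [integral_eq_lintegral_of_nonneg_ae (ae_of_all _ fun x => hf0 _)
        (f.continuous.measurable.comp hmm).aestronglyMeasurable]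
      refine ENNReal.toReal_le_of_le_ofReal zero_le_one ?_
      calc ∫⁻ x, ENNReal.ofReal (f (mass (fun _ => 1) (ω ε) x)) ∂(P ε) ≤
          ∫⁻ x, ENNReal.ofReal (mass (fun _ => 1) (ω ε) x) ∂(P ε) :=
            lintegral_mono fun x => ENNReal.ofReal_le_ofReal (hfx _ (hnn x))
        _ = ENNReal.ofReal 1 := by
            rw [hmn]
            congr 1
            simp
    simp_rw [hmass] at h2
    have hfm : Measurable fun y => f ((M y (Icc (0 : ℝ) 1)).toReal) :=
      f.continuous.measurable.comp hmeas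
    have h3 : ∫⁻ y, min (M y univ) n ∂P' =
        ∫⁻ y, ENNReal.ofReal (f ((M y (Icc (0 : ℝ) 1)).toReal)) ∂P' := by
      refine lintegral_congr_ae ?_
      filter_upwards [hM.supp, hM.fin] with y hs hf
      have h4 : M y univ = M y (Icc 0 1) := by
        rw [← union_compl_self (Icc (0 : ℝ) 1)]
        refine le_antisymm ((measure_union_le _ _).trans (by rw [hs, add_zero])) ?_
        exact measure_mono subset_union_left
      rw [← h4]
      show min (M y univ) n = ENNReal.ofReal (min (max (M y univ).toReal 0) n)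
      rw [max_eq_left ENNReal.toReal_nonneg, ENNReal.ofReal_min, ENNReal.ofReal_toReal hf.ne,
        ENNReal.ofReal_natCast]
    rw [h3, ← ofReal_integral_eq_lintegral_ofReal]
    · exact (ENNReal.ofReal_le_ofReal h2).trans (by simp)
    · refine Integrable.of_bound hfm.aestronglyMeasurable n (ae_of_all _ fun y => ?_)
      rw [Real.norm_eq_abs, abs_of_nonneg (hf0 _)]
      exact min_le_right _ _
    · exact ae_of_all _ fun y => hf0 _
  have h5 : ∀ y, M y univ = ⨆ n : ℕ, min (M y univ) n := by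
    intro y
    rw [← inf_iSup_eq, ENNReal.iSup_natCast, inf_top_eq]
  have hmu : Measurable fun y => M y univ := (Measure.measurable_coe MeasurableSet.univ).comp hM.meas
  calc ∫⁻ y, M y univ ∂P' = ∫⁻ y, ⨆ n : ℕ, min (M y univ) n ∂P' :=
        lintegral_congr fun y => h5 y
    _ = ⨆ n : ℕ, ∫⁻ y, min (M y univ) n ∂P' := by
        refine lintegral_iSup (fun n => hmu.min measurable_const) fun i j hij y => ?_
        exact min_le_min le_rfl (by exact_mod_cast hij)
    _ ≤ 1 := iSup_le key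

/-- The M side. -/
theorem M_close {c : Bool} {r : ℝ → ℝ} {Ω' : Type} [MeasurableSpace Ω'] {P' : Measure Ω'}
    [IsProbabilityMeasure P'] {M : Ω' → Measure ℝ} (hr : Adm c r) (hM : Measurable M)
    (s : ℝ) (hint : ∀ᵐ y ∂P', IntegrableOn (fun u => r u ^ s) (Ioo 0 1) (M y)) (b : ℝ)
    {η : ℝ} (hη : 0 < η) : ∃ t : ℝ, 0 < t ∧ ∀ φ ψ : ℝ → ℝ, Measurable φ → Measurable ψ →
      (∀ u, 0 ≤ φ u) → (∀ u, 0 ≤ ψ u) → (∀ u, φ u ≤ b) → (∀ u, ψ u ≤ b) →
      ∫⁻ u, ENNReal.ofReal |φ u - ψ u| ∂(P'.bind M) ≤ ENNReal.ofReal t →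
      P' {y | η ≤ |∫ u in Ioo (0 : ℝ) 1, r u ^ s * φ u ∂(M y) -
        ∫ u in Ioo (0 : ℝ) 1, r u ^ s * ψ u ∂(M y)|} ≤ ENNReal.ofReal η := by
  set wI : ℝ → ℝ := (Ioo (0 : ℝ) 1).indicator (fun u => r u ^ s) with hwI
  have hw : Measurable wI := meas_w hr s
  have hw0 : ∀ u, 0 ≤ wI u := fun u =>
    indicator_nonneg (fun u hu => Real.rpow_nonneg (hr.pos u hu).le _) u
  let g : ℕ → ℝ → ℝ≥0∞ := fun n u => if (n : ℝ) < wI u then ENNReal.ofReal (wI u) else 0
  have hg : ∀ n, Measurable (g n) := fun n =>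
    Measurable.ite (measurableSet_lt measurable_const hw) hw.ennreal_ofReal measurable_const
  have hganti : ∀ {m n : ℕ}, m ≤ n → ∀ u, g n u ≤ g m u := by
    intro m n hmn u
    show (if (n : ℝ) < wI u then ENNReal.ofReal (wI u) else 0) ≤
      if (m : ℝ) < wI u then ENNReal.ofReal (wI u) else 0
    by_cases h : (n : ℝ) < wI u
    · rw [if_pos h, if_pos (lt_of_le_of_lt (by exact_mod_cast hmn) h)]
    · rw [if_neg h]; exact bot_le
  let G : ℕ → Ω' → ℝ≥0∞ := fun n y => ∫⁻ u, g n u ∂(M y)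
  have hG : ∀ n, Measurable (G n) := fun n => (Measure.measurable_lintegral (hg n)).comp hM
  have hfinw : ∀ᵐ y ∂P', ∫⁻ u, ENNReal.ofReal (wI u) ∂(M y) ≠ ∞ := by
    filter_upwards [hint] with y hy
    have h1 : Integrable wI (M y) := (integrable_indicator_iff measurableSet_Ioo).2 hy
    have h2 := h1.2
    rw [hasFiniteIntegral_iff_enorm] at h2
    refine ne_of_lt (lt_of_le_of_lt (lintegral_mono fun u => ?_) h2)
    rw [← ofReal_norm, Real.norm_eq_abs, abs_of_nonneg (hw0 u)]
  have hlim : ∀ᵐ y ∂P', Tendsto (fun n => G n y) atTop (𝓝 0) := by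
    filter_upwards [hfinw] with y hy
    have h1 := tendsto_lintegral_of_dominated_convergence (μ := M y) (F := fun n u => g n u)
      (f := fun _ => 0) (fun u => ENNReal.ofReal (wI u)) hg
      (fun n => ae_of_all _ fun u => by
        show (if (n : ℝ) < wI u then ENNReal.ofReal (wI u) else 0) ≤ _
        split_ifs
        · exact le_rfl
        · exact bot_le) hy
      (ae_of_all _ fun u => by
        obtain ⟨N, hN⟩ := exists_nat_ge (wI u)
        refine tendsto_const_nhds.congr' ?_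
        filter_upwards [eventually_ge_atTop N] with n hn
        show 0 = if (n : ℝ) < wI u then ENNReal.ofReal (wI u) else 0
        rw [if_neg (not_lt.2 (hN.trans (by exact_mod_cast hn)))])
    simpa using h1
  -- the second bad set
  let A : ℕ → Set Ω' := fun n => {y | ENNReal.ofReal (η / 2) ≤ ENNReal.ofReal b * G n y}
  have hη2 : (0 : ℝ≥0∞) < ENNReal.ofReal (η / 2) := by
    rw [ENNReal.ofReal_pos]; positivity
  have hA : Tendsto (fun n => P' (A n)) atTop (𝓝 (P' (⋂ n, A n))) := by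
    refine tendsto_measure_iInter_atTop (fun n => ?_) (fun m n hmn y hy => ?_) ⟨0, measure_ne_top _ _⟩
    · exact (measurableSet_le measurable_const ((hG n).const_mul _)).nullMeasurableSet
    · refine le_trans (show ENNReal.ofReal (η / 2) ≤ ENNReal.ofReal b * G n y from hy) ?_
      exact mul_le_mul_right (lintegral_mono fun u => hganti hmn u) _
  have hA0 : P' (⋂ n, A n) = 0 := by
    have h1 : ∀ᵐ y ∂P', y ∉ ⋂ n, A n := by
      filter_upwards [hlim] with y hy hmem
      have h2 : Tendsto (fun n => ENNReal.ofReal b * G n y) atTop (𝓝 (ENNReal.ofReal b * 0)) :=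
        ENNReal.Tendsto.const_mul hy (Or.inr ENNReal.ofReal_ne_top)
      rw [mul_zero] at h2
      obtain ⟨n, hn⟩ := ((tendsto_order.1 h2).2 _ hη2).exists
      exact absurd (mem_iInter.1 hmem n) (not_le.2 hn)
    exact measure_eq_zero_iff_ae_notMem.2 h1
  rw [hA0] at hA
  obtain ⟨n, hn⟩ := ((tendsto_order.1 hA).2 _ hη2).exists
  refine ⟨η / 2 * (η / (2 * ((n : ℝ) + 1))), by positivity, fun φ ψ hφ hψ hφ0 hψ0 hφb hψb hφψ => ?_⟩
  have hb : 0 ≤ b := (hφ0 0).trans (hφb 0)
  set D : ℝ → ℝ := fun u => |φ u - ψ u| with hD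
  have hDm : Measurable D := (hφ.sub hψ).norm
  have hDb : ∀ u, D u ≤ b := fun u => by
    show |φ u - ψ u| ≤ b
    rw [abs_le]
    constructor <;> linarith [hφ0 u, hψ0 u, hφb u, hψb u]
  let B : Ω' → ℝ≥0∞ := fun y => ∫⁻ u, ENNReal.ofReal (D u) ∂(M y)
  have hB : Measurable B := (Measure.measurable_lintegral hDm.ennreal_ofReal).comp hM
  have hBint : ∫⁻ y, B y ∂P' ≤ ENNReal.ofReal (η / 2 * (η / (2 * ((n : ℝ) + 1)))) := by
    refine le_trans (le_of_eq ?_) hφψ
    rw [Measure.lintegral_bind hM.aemeasurable hDm.ennreal_ofReal.aemeasurable]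
  have hc : (0 : ℝ) < η / (2 * ((n : ℝ) + 1)) := by positivity
  have hbad1 : P' {y | ENNReal.ofReal (η / (2 * ((n : ℝ) + 1))) ≤ B y} ≤ ENNReal.ofReal (η / 2) := by
    have h1 := meas_ge_le_lintegral_div (μ := P') hB.aemeasurable
      (ε := ENNReal.ofReal (η / (2 * ((n : ℝ) + 1)))) (by rw [Ne, ENNReal.ofReal_eq_zero]; linarith)
      ENNReal.ofReal_ne_top
    refine h1.trans ?_
    rw [ENNReal.div_le_iff (by rw [Ne, ENNReal.ofReal_eq_zero]; linarith) ENNReal.ofReal_ne_top,
      ← ENNReal.ofReal_mul (by positivity)]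
    exact hBint
  have hsub : {y | η ≤ |∫ u in Ioo (0 : ℝ) 1, r u ^ s * φ u ∂(M y) -
      ∫ u in Ioo (0 : ℝ) 1, r u ^ s * ψ u ∂(M y)|} ≤ᵐ[P']
      (({y | ENNReal.ofReal (η / (2 * ((n : ℝ) + 1))) ≤ B y} ∪ A n : Set Ω')) := by
    filter_upwards [hfinw, hint] with y hy hyint hmem
    by_contra hnot
    have hnot' : ¬ (y ∈ {y | ENNReal.ofReal (η / (2 * ((n : ℝ) + 1))) ≤ B y} ∨ y ∈ A n) := hnot
    rw [not_or] at hnot'
    obtain ⟨hn1, hn2⟩ := hnot'
    have hn1' : B y < ENNReal.ofReal (η / (2 * ((n : ℝ) + 1))) := not_le.1 hn1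
    have hn2' : ENNReal.ofReal b * G n y < ENNReal.ofReal (η / 2) := not_le.1 hn2
    have hintw : Integrable wI (M y) := (integrable_indicator_iff measurableSet_Ioo).2 hyint
    have hI : ∀ θ : ℝ → ℝ, Measurable θ → (∀ u, 0 ≤ θ u) → (∀ u, θ u ≤ b) →
        Integrable (fun u => wI u * θ u) (M y) ∧
        ∫ u in Ioo (0 : ℝ) 1, r u ^ s * θ u ∂(M y) = ∫ u, wI u * θ u ∂(M y) := by
      intro θ hθ hθ0 hθb
      refine ⟨?_, ?_⟩
      · refine hintw.mul_bdd (c := b) hθ.aestronglyMeasurable (ae_of_all _ fun u => ?_)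
        rw [Real.norm_eq_abs, abs_of_nonneg (hθ0 u)]
        exact hθb u
      · rw [← integral_indicator measurableSet_Ioo]
        congr 1
        funext u
        by_cases hu : u ∈ Ioo (0 : ℝ) 1
        · rw [indicator_of_mem hu, hwI, indicator_of_mem hu]
        · rw [indicator_of_notMem hu, hwI, indicator_of_notMem hu, zero_mul]
    obtain ⟨hI1, hI2⟩ := hI φ hφ hφ0 hφb
    obtain ⟨hI3, hI4⟩ := hI ψ hψ hψ0 hψb
    have hmem' : η ≤ |∫ u in Ioo (0 : ℝ) 1, r u ^ s * φ u ∂(M y) -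
      ∫ u in Ioo (0 : ℝ) 1, r u ^ s * ψ u ∂(M y)| := hmem
    rw [hI2, hI4, ← integral_sub hI1 hI3] at hmem'
    have h1 : |∫ u, (wI u * φ u - wI u * ψ u) ∂(M y)| ≤ ∫ u, wI u * D u ∂(M y) := by
      rw [← Real.norm_eq_abs]
      refine (norm_integral_le_integral_norm _).trans (le_of_eq ?_)
      congr 1
      funext u
      rw [← mul_sub, norm_mul, Real.norm_eq_abs, Real.norm_eq_abs, abs_of_nonneg (hw0 u)]
    have h2 : ∫ u, wI u * D u ∂(M y) = (∫⁻ u, ENNReal.ofReal (wI u * D u) ∂(M y)).toReal :=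
      integral_eq_lintegral_of_nonneg_ae (ae_of_all _ fun u => mul_nonneg (hw0 u) (abs_nonneg _))
        (hw.mul hDm).aestronglyMeasurable
    have h3 : ∫⁻ u, ENNReal.ofReal (wI u * D u) ∂(M y) ≤ (n : ℝ≥0∞) * B y + ENNReal.ofReal b * G n y := by
      rw [← lintegral_const_mul _ hDm.ennreal_ofReal, ← lintegral_const_mul _ (hg n),
        ← lintegral_add_left (hDm.ennreal_ofReal.const_mul _)]
      refine lintegral_mono fun u => ?_
      show ENNReal.ofReal (wI u * D u) ≤ (n : ℝ≥0∞) * ENNReal.ofReal (D u) +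
        ENNReal.ofReal b * (if (n : ℝ) < wI u then ENNReal.ofReal (wI u) else 0)
      by_cases h : (n : ℝ) < wI u
      · rw [if_pos h, ← ENNReal.ofReal_mul hb]
        refine le_trans (ENNReal.ofReal_le_ofReal ?_) le_add_self
        rw [mul_comm]
        exact mul_le_mul_of_nonneg_right (hDb u) (hw0 u)
      · rw [if_neg h, mul_zero, add_zero, ← ENNReal.ofReal_natCast, ← ENNReal.ofReal_mul (Nat.cast_nonneg n)]
        exact ENNReal.ofReal_le_ofReal (mul_le_mul_of_nonneg_right (not_lt.1 h) (abs_nonneg _))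
    have h4 : (n : ℝ≥0∞) * B y ≤ ENNReal.ofReal (η / 2) := by
      calc (n : ℝ≥0∞) * B y ≤ ENNReal.ofReal (n : ℝ) * ENNReal.ofReal (η / (2 * ((n : ℝ) + 1))) := by
            rw [ENNReal.ofReal_natCast]
            exact mul_le_mul_right hn1'.le _
        _ = ENNReal.ofReal ((n : ℝ) * (η / (2 * ((n : ℝ) + 1)))) := by
            rw [ENNReal.ofReal_mul (Nat.cast_nonneg n)]
        _ ≤ ENNReal.ofReal (η / 2) := by
            refine ENNReal.ofReal_le_ofReal ?_
            have hn0 : (0 : ℝ) ≤ n := Nat.cast_nonneg n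
            rw [← mul_div_assoc, div_le_div_iff₀ (by positivity) (by norm_num)]
            nlinarith
    have h5 : ∫⁻ u, ENNReal.ofReal (wI u * D u) ∂(M y) < ENNReal.ofReal η := by
      refine lt_of_le_of_lt h3 ?_
      have h6 : ENNReal.ofReal η = ENNReal.ofReal (η / 2) + ENNReal.ofReal (η / 2) := by
        rw [← ENNReal.ofReal_add (by positivity) (by positivity)]
        congr 1
        ring
      rw [h6]
      exact ENNReal.add_lt_add_of_le_of_lt (ne_top_of_le_ne_top ENNReal.ofReal_ne_top h4) h4 hn2'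
    have h7 : (∫⁻ u, ENNReal.ofReal (wI u * D u) ∂(M y)).toReal < η :=
      ENNReal.toReal_lt_of_lt_ofReal h5
    rw [h2] at h1
    linarith
  refine (measure_mono_ae hsub).trans ((measure_union_le _ _).trans ?_)
  have h6 : ENNReal.ofReal η = ENNReal.ofReal (η / 2) + ENNReal.ofReal (η / 2) := by
    rw [← ENNReal.ofReal_add (by positivity) (by positivity)]
    congr 1
    ring
  rw [h6]
  exact add_le_add hbad1 hn.le

/-- Approximation by continuous functions with respect to two measures. -/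
theorem approx (ν : Measure ℝ) [IsFiniteMeasure ν] {φ : ℝ → ℝ} (hφ : Measurable φ) {a b : ℝ}
    (ha : ∀ u, a ≤ φ u) (hb : ∀ u, φ u ≤ b) {t : ℝ} (ht : 0 < t) :
    ∃ ψ : ℝ → ℝ, Continuous ψ ∧ (∀ u, a ≤ ψ u) ∧ (∀ u, ψ u ≤ b) ∧
      ∫ u in Ico (0 : ℝ) 1, |φ u - ψ u| ≤ t ∧
      ∫⁻ u, ENNReal.ofReal |φ u - ψ u| ∂ν ≤ ENNReal.ofReal t := by
  have hab : a ≤ b := (ha 0).trans (hb 0)
  set ρ : Measure ℝ := volume.restrict (Ico (0 : ℝ) 1) + ν with hρ
  have hfin : IsFiniteMeasure (volume.restrict (Ico (0 : ℝ) 1)) := by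
    refine ⟨?_⟩
    rw [Measure.restrict_apply_univ, Real.volume_Ico]
    exact ENNReal.ofReal_lt_top
  have hρf : IsFiniteMeasure ρ := by rw [hρ]; infer_instance
  have hint : Integrable φ ρ := by
    refine Integrable.of_bound hφ.aestronglyMeasurable (max |a| |b|) (ae_of_all _ fun u => ?_)
    rw [Real.norm_eq_abs]
    exact abs_le_max_abs_abs (ha u) (hb u)
  obtain ⟨g, hg, -⟩ := hint.exists_boundedContinuous_lintegral_sub_le (ε := ENNReal.ofReal t)
    (by simpa using ht)
  let ψ : ℝ → ℝ := fun u => max a (min b (g u))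
  have hψc : Continuous ψ := by
    have := g.continuous
    fun_prop
  have hψa : ∀ u, a ≤ ψ u := fun u => le_max_left _ _
  have hψb : ∀ u, ψ u ≤ b := fun u => max_le hab (min_le_left _ _)
  have hle : ∀ u, |φ u - ψ u| ≤ |φ u - g u| := by
    intro u
    have h1 := ha u
    have h2 := hb u
    show |φ u - max a (min b (g u))| ≤ _
    rcases le_total (g u) b with h3 | h3
    · rw [min_eq_right h3]
      rcases le_total a (g u) with h4 | h4
      · rw [max_eq_right h4]
      · rw [max_eq_left h4, abs_of_nonneg (by linarith), abs_of_nonneg (by linarith)]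
        linarith
    · rw [min_eq_left h3, max_eq_right hab, abs_of_nonpos (by linarith), abs_of_nonpos (by linarith)]
      linarith
  have htot : ∫⁻ u, ENNReal.ofReal |φ u - ψ u| ∂ρ ≤ ENNReal.ofReal t := by
    refine (lintegral_mono fun u => ?_).trans hg
    rw [← ofReal_norm]
    exact ENNReal.ofReal_le_ofReal (hle u)
  rw [hρ, lintegral_add_measure] at htot
  refine ⟨ψ, hψc, hψa, hψb, ?_, le_trans le_add_self htot⟩
  have hm : Measurable fun u => |φ u - ψ u| := (hφ.sub hψc.measurable).norm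
  rw [integral_eq_lintegral_of_nonneg_ae (ae_of_all _ fun u => abs_nonneg _)
    hm.aestronglyMeasurable]
  exact ENNReal.toReal_le_of_le_ofReal ht.le (le_trans le_self_add htot)

end Pool.Agent.L5helper56.CG
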